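import Pool.Agent.Helper76.TH.StC

/-!
# Project TH, module TYPH: maps of the plane and their types

All maps are written as pairs of fractional linear maps in one coordinate; the relations are identities of matrices up to scalars.
Model: `Pool/Agent/Helper71/W5/M_Typ.lean`.
-/

set_option autoImplicit false

namespace Pool.Agent.Helper42.TH

open Pool.Agent.Helper76.TH
open Pool.Agent.Helper93.TLH
open Pool.Agent.Helper14.W5

private theorem unit5 {m : ℕ} (a : ℤ) (ha : ¬ (5 : ℤ) ∣ a) (z : ZMod (5 ^ m)) :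
    IsUnit ((a : ZMod (5 ^ m)) + 5 * z) := by
  obtain ⟨k, rfl⟩ := ZMod.intCast_surjective z
  have h5 : Prime (5 : ℤ) := by norm_num
  have h1 : IsCoprime (5 : ℤ) (a + 5 * k) := by
    refine (Irreducible.coprime_iff_not_dvd h5.irreducible).mpr fun h => ha ?_
    exact (dvd_add_left (dvd_mul_right 5 k)).mp h
  obtain ⟨u, v, huv⟩ := h1.pow_left (m := m)
  refine IsUnit.of_mul_eq_one ((v : ZMod (5 ^ m))) ?_
  have h2 := congrArg (Int.cast : ℤ → ZMod (5 ^ m)) huv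
  push_cast at h2
  have h3 : (5 : ZMod (5 ^ m)) ^ m = 0 := by
    have := ZMod.natCast_self (5 ^ m)
    push_cast at this
    exact this
  rw [h3] at h2
  linear_combination h2

private theorem unitA (μ : ℕ) {m : ℕ} (a c : ℤ) (ha : ¬ (5 : ℤ) ∣ a) (x : ZMod (5 ^ m)) :
    IsUnit ((a : ZMod (5 ^ m)) + 5 ^ (μ + 1) * c * x) := by
  have h := unit5 (m := m) a ha (5 ^ μ * c * x)
  have e : (a : ZMod (5 ^ m)) + 5 * (5 ^ μ * c * x) = (a : ZMod (5 ^ m)) + 5 ^ (μ + 1) * c * x := by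
    ring
  rwa [e] at h

private theorem frac_eq {n : ℕ} {x y s t : ZMod n} (hs : IsUnit s) (ht : IsUnit t)
    (h : x * t = y * s) : x * s⁻¹ = y * t⁻¹ := by
  have h1 := ZMod.mul_inv_of_unit s hs
  have h2 := ZMod.mul_inv_of_unit t ht
  linear_combination (x * s⁻¹) * (-h2) + (y * t⁻¹) * h1 + s⁻¹ * t⁻¹ * h

/-- The fraction in the definition of `trp`. -/
private noncomputable def mob (μ : ℕ) {m : ℕ} (a b c d : ℤ) (t : ZMod (5 ^ m)) : ZMod (5 ^ m) :=
  ((b : ZMod (5 ^ m)) + d * t) * ((a : ZMod (5 ^ m)) + 5 ^ (μ + 1) * c * t)⁻¹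

private theorem trp_eq (μ : ℕ) {m : ℕ} (a b c d : ℤ) (p : Pt m) :
    trp μ a b c d p = (mob μ a b c d p.1, mob μ d c b a p.2) := rfl

private theorem mob_mob (μ : ℕ) {m : ℕ} (a b c d a' b' c' d' : ℤ) (ha : ¬ (5 : ℤ) ∣ a)
    (ha' : ¬ (5 : ℤ) ∣ a') (hA : ¬ (5 : ℤ) ∣ a * a' + 5 ^ (μ + 1) * b * c') (t : ZMod (5 ^ m)) :
    mob μ a' b' c' d' (mob μ a b c d t) =
      mob μ (a * a' + 5 ^ (μ + 1) * b * c') (a * b' + b * d') (c * a' + d * c')
        (5 ^ (μ + 1) * c * b' + d * d') t := by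
  have h1 := ZMod.mul_inv_of_unit _ (unitA μ a c ha t)
  refine frac_eq (unitA μ a' c' ha' _) (unitA μ _ _ hA t) ?_
  unfold mob
  push_cast
  linear_combination (d' * ((b : ZMod (5 ^ m)) + d * t) * a' -
    b' * (5 ^ (μ + 1) * c' * ((b : ZMod (5 ^ m)) + d * t))) * h1

private theorem mob_id (μ : ℕ) {m : ℕ} (t : ZMod (5 ^ m)) : mob μ 1 0 0 1 t = t := by
  unfold mob
  simp

private theorem mob_arg_neg (μ : ℕ) {m : ℕ} (a b c d : ℤ) (t : ZMod (5 ^ m)) :
    mob μ a b c d (-t) = mob μ a b (-c) (-d) t := by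
  unfold mob
  push_cast
  ring_nf

private theorem dv_mob (μ : ℕ) {m : ℕ} (a b c d s : ℤ) (ha : ¬ (5 : ℤ) ∣ a)
    (hs : (5 : ℤ) ∣ a * d - 5 ^ (μ + 1) * b * c - s * a ^ 2) :
    Dv s (mob μ a b c d : ZMod (5 ^ m) → ZMod (5 ^ m)) := by
  intro i x x' hx
  obtain ⟨k, hk⟩ := hx
  obtain ⟨q, hq⟩ := hs
  have hq' := congrArg (Int.cast : ℤ → ZMod (5 ^ m)) hq
  push_cast at hq'
  have h := ZMod.mul_inv_of_unit _ (unitA μ a c ha x)
  have h' := ZMod.mul_inv_of_unit _ (unitA μ a c ha x')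
  unfold mob
  set v := ((a : ZMod (5 ^ m)) + 5 ^ (μ + 1) * c * x)⁻¹ with hv
  set v' := ((a : ZMod (5 ^ m)) + 5 ^ (μ + 1) * c * x')⁻¹ with hv'
  refine ⟨k * v * v' * (q - s * (5 ^ μ * c * x * a + 5 ^ μ * c * x' * a +
    5 ^ μ * 5 ^ (μ + 1) * c ^ 2 * x * x')), ?_⟩
  linear_combination (((b : ZMod (5 ^ m)) + d * x') * v' + s * (x - x')) * h +
    (-((b : ZMod (5 ^ m)) + d * x) * v +
      s * (x - x') * (((a : ZMod (5 ^ m)) + 5 ^ (μ + 1) * c * x) * v)) * h' +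
    v * v' * ((a * d - 5 ^ (μ + 1) * b * c) - s * (((a : ZMod (5 ^ m)) + 5 ^ (μ + 1) * c * x) *
      ((a : ZMod (5 ^ m)) + 5 ^ (μ + 1) * c * x'))) * hk + 5 ^ i * k * v * v' * hq'

private theorem dv_neg {m : ℕ} : Dv (-1) (fun x : ZMod (5 ^ m) => -x) := by
  intro i x x' _
  refine ⟨0, ?_⟩
  push_cast
  ring

/-- Composition of two fractional linear maps, up to the scalar `k`. -/
private theorem mm (μ : ℕ) (k : ℤ) {m : ℕ} (a b c d a' b' c' d' A B C D : ℤ) (ha : ¬ (5 : ℤ) ∣ a)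
    (ha' : ¬ (5 : ℤ) ∣ a') (hA : ¬ (5 : ℤ) ∣ A) (hk : ¬ (5 : ℤ) ∣ k)
    (h1 : a * a' + 5 ^ (μ + 1) * b * c' = k * A) (h2 : a * b' + b * d' = k * B)
    (h3 : c * a' + d * c' = k * C) (h4 : 5 ^ (μ + 1) * c * b' + d * d' = k * D) (t : ZMod (5 ^ m)) :
    mob μ a' b' c' d' (mob μ a b c d t) = mob μ A B C D t := by
  have h5 : Prime (5 : ℤ) := by norm_num
  have hkA : ¬ (5 : ℤ) ∣ k * A := fun h => (h5.dvd_or_dvd h).elim hk hA
  rw [mob_mob μ a b c d a' b' c' d' ha ha' (by rw [h1]; exact hkA) t, h1, h2, h3, h4]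
  refine frac_eq (unitA μ _ _ hkA t) (unitA μ A C hA t) ?_
  push_cast
  ring

private theorem ty0 {m : ℕ} (r : Pt m → Pt m) (μ : ℕ) (s s' : ℤ) (a b c d a' b' c' d' : ℤ)
    (ha : ¬ (5 : ℤ) ∣ a) (ha' : ¬ (5 : ℤ) ∣ a') (h0 : ¬ (5 : ℤ) ∣ s) (h0' : ¬ (5 : ℤ) ∣ s')
    (h1 : ¬ (5 : ℤ) ∣ s - 1) (h1' : ¬ (5 : ℤ) ∣ s' - 1)
    (hs : (5 : ℤ) ∣ a * d - 5 ^ (μ + 1) * b * c - s * a ^ 2)
    (hs' : (5 : ℤ) ∣ a' * d' - 5 ^ (μ + 1) * b' * c' - s' * a' ^ 2)
    (h : ∀ p : Pt m, r p = (mob μ a b c d p.1, mob μ a' b' c' d' p.2)) : TyH 0 r :=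
  Or.inl ⟨rfl, s, s', _, _, h0, h0', h1, h1', dv_mob μ a b c d s ha hs, dv_mob μ a' b' c' d' s' ha' hs', h⟩

private theorem ty1 {m : ℕ} (r : Pt m → Pt m) (μ : ℕ) (s s' : ℤ) (a b c d a' b' c' d' : ℤ)
    (ha : ¬ (5 : ℤ) ∣ a) (ha' : ¬ (5 : ℤ) ∣ a') (h0 : ¬ (5 : ℤ) ∣ s) (h0' : ¬ (5 : ℤ) ∣ s')
    (hs : (5 : ℤ) ∣ a * d - 5 ^ (μ + 1) * b * c - s * a ^ 2)
    (hs' : (5 : ℤ) ∣ a' * d' - 5 ^ (μ + 1) * b' * c' - s' * a' ^ 2)
    (h : ∀ p : Pt m, r p = (mob μ a b c d p.2, mob μ a' b' c' d' p.1)) : TyH 1 r :=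
  Or.inr ⟨rfl, s, s', _, _, h0, h0', dv_mob μ a b c d s ha hs, dv_mob μ a' b' c' d' s' ha' hs', h⟩

private theorem dR_eq (μ : ℕ) {m : ℕ} (p : Pt m) :
    dR μ p = (mob μ 1 (-1) 0 (-1) p.1, mob μ 1 0 1 (-1) p.2) := by
  show (mob μ 1 (-1) 0 1 (-p.1), mob μ 1 0 (-1) 1 (-p.2)) = _
  rw [mob_arg_neg, mob_arg_neg]
  norm_num

private theorem dRdR (μ : ℕ) {m : ℕ} (p : Pt m) : dR μ (dR μ p) = p := by
  rw [dR_eq, dR_eq]
  refine Prod.ext ?_ ?_
  · show mob μ 1 (-1) 0 (-1) (mob μ 1 (-1) 0 (-1) p.1) = p.1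
    rw [mob_mob _ _ _ _ _ _ _ _ _ (by norm_num) (by norm_num) (by norm_num)]
    norm_num [mob_id]
  · show mob μ 1 0 1 (-1) (mob μ 1 0 1 (-1) p.2) = p.2
    rw [mob_mob _ _ _ _ _ _ _ _ _ (by norm_num) (by norm_num) (by norm_num)]
    norm_num [mob_id]

private theorem swH_eq0 {m : ℕ} (p : Pt m) :
    swH p = (mob 0 2 0 0 1 p.2, mob 0 1 0 0 2 p.1) := by
  unfold swH mob
  simp

private theorem swH_eq1 {m : ℕ} (p : Pt m) :
    swH p = (mob 1 2 0 0 1 p.2, mob 1 1 0 0 2 p.1) := by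
  unfold swH mob
  simp

private theorem cOH_eq {m : ℕ} (p : Pt m) :
    cOH p = (mob 0 2 (-1) 1 (-2) p.2, mob 0 (-2) 1 (-1) 2 p.1) := by
  unfold cOH
  rw [swH_eq0, trp_eq]
  exact Prod.ext (mm _ 2 _ _ _ _ _ _ _ _ _ _ _ _ (by norm_num) (by norm_num) (by norm_num) (by norm_num) (by norm_num) (by norm_num)
      (by norm_num) (by norm_num) _)
    (mm _ 2 _ _ _ _ _ _ _ _ _ _ _ _ (by norm_num) (by norm_num) (by norm_num) (by norm_num) (by norm_num) (by norm_num)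
      (by norm_num) (by norm_num) _)

private theorem cAH_eq {m : ℕ} (p : Pt m) :
    cAH p = (mob 1 4 (-1) 1 (-6) p.2, mob 1 (-6) 1 (-1) 4 p.1) := by
  unfold cAH
  rw [swH_eq1, trp_eq]
  exact Prod.ext (mm _ 2 _ _ _ _ _ _ _ _ _ _ _ _ (by norm_num) (by norm_num) (by norm_num) (by norm_num) (by norm_num) (by norm_num)
      (by norm_num) (by norm_num) _)
    (mm _ 2 _ _ _ _ _ _ _ _ _ _ _ _ (by norm_num) (by norm_num) (by norm_num) (by norm_num) (by norm_num) (by norm_num)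
      (by norm_num) (by norm_num) _)

private theorem cBH_eq {m : ℕ} (p : Pt m) :
    cBH p = (mob 1 6 (-1) 1 (-4) p.2, mob 1 (-4) 1 (-1) 6 p.1) := by
  unfold cBH
  rw [swH_eq1, trp_eq]
  exact Prod.ext (mm _ 2 _ _ _ _ _ _ _ _ _ _ _ _ (by norm_num) (by norm_num) (by norm_num) (by norm_num) (by norm_num) (by norm_num)
      (by norm_num) (by norm_num) _)
    (mm _ 2 _ _ _ _ _ _ _ _ _ _ _ _ (by norm_num) (by norm_num) (by norm_num) (by norm_num) (by norm_num) (by norm_num)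
      (by norm_num) (by norm_num) _)

private theorem cCH_eq {m : ℕ} (p : Pt m) :
    cCH p = (mob 1 2 (-1) 1 (-12) p.2, mob 1 (-12) 1 (-1) 2 p.1) := by
  unfold cCH
  rw [swH_eq1, trp_eq]
  exact Prod.ext (mm _ 2 _ _ _ _ _ _ _ _ _ _ _ _ (by norm_num) (by norm_num) (by norm_num) (by norm_num) (by norm_num) (by norm_num)
      (by norm_num) (by norm_num) _)
    (mm _ 2 _ _ _ _ _ _ _ _ _ _ _ _ (by norm_num) (by norm_num) (by norm_num) (by norm_num) (by norm_num) (by norm_num)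
      (by norm_num) (by norm_num) _)

private theorem ngsw_eq {m : ℕ} (p : Pt m) :
    ng (swH p) = (mob 1 2 0 0 (-1) p.2, mob 1 1 0 0 (-2) p.1) := by
  unfold ng swH mob
  simp

private theorem dlH_eq {m : ℕ} (p : Pt m) :
    dlH p = (mob 1 6 (-2) 2 (-17) p.2, mob 1 17 (-2) 2 (-6) p.1) := by
  unfold dlH
  rw [ngsw_eq, trp_eq]
  exact Prod.ext (mm _ 1 _ _ _ _ _ _ _ _ _ _ _ _ (by norm_num) (by norm_num) (by norm_num) (by norm_num) (by norm_num) (by norm_num)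
      (by norm_num) (by norm_num) _)
    (mm _ 1 _ _ _ _ _ _ _ _ _ _ _ _ (by norm_num) (by norm_num) (by norm_num) (by norm_num) (by norm_num) (by norm_num)
      (by norm_num) (by norm_num) _)

private theorem swsw {m : ℕ} (p : Pt m) : swH (swH (p)) = p := by
  rw [swH_eq0, swH_eq0]
  exact Prod.ext ((mm _ 2 _ _ _ _ _ _ _ _ 1 0 0 1 (by norm_num) (by norm_num) (by norm_num) (by norm_num) (by norm_num) (by norm_num)
      (by norm_num) (by norm_num) _).trans (mob_id _ _))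
    ((mm _ 2 _ _ _ _ _ _ _ _ 1 0 0 1 (by norm_num) (by norm_num) (by norm_num) (by norm_num) (by norm_num) (by norm_num)
      (by norm_num) (by norm_num) _).trans (mob_id _ _))

private theorem cOcO {m : ℕ} (p : Pt m) : cOH (cOH (p)) = p := by
  rw [cOH_eq, cOH_eq]
  exact Prod.ext ((mm _ 1 _ _ _ _ _ _ _ _ 1 0 0 1 (by norm_num) (by norm_num) (by norm_num) (by norm_num) (by norm_num) (by norm_num)
      (by norm_num) (by norm_num) _).trans (mob_id _ _))
    ((mm _ 1 _ _ _ _ _ _ _ _ 1 0 0 1 (by norm_num) (by norm_num) (by norm_num) (by norm_num) (by norm_num) (by norm_num)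
      (by norm_num) (by norm_num) _).trans (mob_id _ _))

private theorem cAcA {m : ℕ} (p : Pt m) : cAH (cAH (p)) = p := by
  rw [cAH_eq, cAH_eq]
  exact Prod.ext ((mm _ 1 _ _ _ _ _ _ _ _ 1 0 0 1 (by norm_num) (by norm_num) (by norm_num) (by norm_num) (by norm_num) (by norm_num)
      (by norm_num) (by norm_num) _).trans (mob_id _ _))
    ((mm _ 1 _ _ _ _ _ _ _ _ 1 0 0 1 (by norm_num) (by norm_num) (by norm_num) (by norm_num) (by norm_num) (by norm_num)
      (by norm_num) (by norm_num) _).trans (mob_id _ _))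

private theorem cBcB {m : ℕ} (p : Pt m) : cBH (cBH (p)) = p := by
  rw [cBH_eq, cBH_eq]
  exact Prod.ext ((mm _ 1 _ _ _ _ _ _ _ _ 1 0 0 1 (by norm_num) (by norm_num) (by norm_num) (by norm_num) (by norm_num) (by norm_num)
      (by norm_num) (by norm_num) _).trans (mob_id _ _))
    ((mm _ 1 _ _ _ _ _ _ _ _ 1 0 0 1 (by norm_num) (by norm_num) (by norm_num) (by norm_num) (by norm_num) (by norm_num)
      (by norm_num) (by norm_num) _).trans (mob_id _ _))

private theorem cCcC {m : ℕ} (p : Pt m) : cCH (cCH (p)) = p := by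
  rw [cCH_eq, cCH_eq]
  exact Prod.ext ((mm _ 1 _ _ _ _ _ _ _ _ 1 0 0 1 (by norm_num) (by norm_num) (by norm_num) (by norm_num) (by norm_num) (by norm_num)
      (by norm_num) (by norm_num) _).trans (mob_id _ _))
    ((mm _ 1 _ _ _ _ _ _ _ _ 1 0 0 1 (by norm_num) (by norm_num) (by norm_num) (by norm_num) (by norm_num) (by norm_num)
      (by norm_num) (by norm_num) _).trans (mob_id _ _))

private theorem dldl {m : ℕ} (p : Pt m) : dlH (dlH (p)) = p := by
  rw [dlH_eq, dlH_eq]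
  exact Prod.ext ((mm _ 2 _ _ _ _ _ _ _ _ 1 0 0 1 (by norm_num) (by norm_num) (by norm_num) (by norm_num) (by norm_num) (by norm_num)
      (by norm_num) (by norm_num) _).trans (mob_id _ _))
    ((mm _ 2 _ _ _ _ _ _ _ _ 1 0 0 1 (by norm_num) (by norm_num) (by norm_num) (by norm_num) (by norm_num) (by norm_num)
      (by norm_num) (by norm_num) _).trans (mob_id _ _))

private theorem dRcO {m : ℕ} (p : Pt m) :
    dR 0 (cOH p) = (mob 0 2 (-1) 1 (-3) p.2, mob 0 3 (-1) 1 (-2) p.1) := by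
  rw [cOH_eq, dR_eq]
  exact Prod.ext (mm _ 1 _ _ _ _ _ _ _ _ _ _ _ _ (by norm_num) (by norm_num) (by norm_num) (by norm_num) (by norm_num) (by norm_num)
      (by norm_num) (by norm_num) _)
    (mm _ 1 _ _ _ _ _ _ _ _ _ _ _ _ (by norm_num) (by norm_num) (by norm_num) (by norm_num) (by norm_num) (by norm_num)
      (by norm_num) (by norm_num) _)

private theorem cOdR {m : ℕ} (p : Pt m) :
    cOH (dR 0 p) = (mob 0 2 (-1) 1 (-3) p.2, mob 0 3 (-1) 1 (-2) p.1) := by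
  rw [dR_eq, cOH_eq]
  exact Prod.ext (mm _ 1 _ _ _ _ _ _ _ _ _ _ _ _ (by norm_num) (by norm_num) (by norm_num) (by norm_num) (by norm_num) (by norm_num)
      (by norm_num) (by norm_num) _)
    (mm _ 1 _ _ _ _ _ _ _ _ _ _ _ _ (by norm_num) (by norm_num) (by norm_num) (by norm_num) (by norm_num) (by norm_num)
      (by norm_num) (by norm_num) _)

private theorem dRcC {m : ℕ} (p : Pt m) :
    dR 1 (cCH p) = (mob 1 2 (-1) 1 (-13) p.2, mob 1 13 (-1) 1 (-2) p.1) := by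
  rw [cCH_eq, dR_eq]
  exact Prod.ext (mm _ 1 _ _ _ _ _ _ _ _ _ _ _ _ (by norm_num) (by norm_num) (by norm_num) (by norm_num) (by norm_num) (by norm_num)
      (by norm_num) (by norm_num) _)
    (mm _ 1 _ _ _ _ _ _ _ _ _ _ _ _ (by norm_num) (by norm_num) (by norm_num) (by norm_num) (by norm_num) (by norm_num)
      (by norm_num) (by norm_num) _)

private theorem cCdR {m : ℕ} (p : Pt m) :
    cCH (dR 1 p) = (mob 1 2 (-1) 1 (-13) p.2, mob 1 13 (-1) 1 (-2) p.1) := by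
  rw [dR_eq, cCH_eq]
  exact Prod.ext (mm _ 1 _ _ _ _ _ _ _ _ _ _ _ _ (by norm_num) (by norm_num) (by norm_num) (by norm_num) (by norm_num) (by norm_num)
      (by norm_num) (by norm_num) _)
    (mm _ 1 _ _ _ _ _ _ _ _ _ _ _ _ (by norm_num) (by norm_num) (by norm_num) (by norm_num) (by norm_num) (by norm_num)
      (by norm_num) (by norm_num) _)

private theorem swcO {m : ℕ} (p : Pt m) :
    swH (cOH p) = (mob 0 (-4) 1 (-2) 2 p.1, mob 0 2 (-2) 1 (-4) p.2) := by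
  rw [cOH_eq, swH_eq0]
  exact Prod.ext (mm _ 1 _ _ _ _ _ _ _ _ _ _ _ _ (by norm_num) (by norm_num) (by norm_num) (by norm_num) (by norm_num) (by norm_num)
      (by norm_num) (by norm_num) _)
    (mm _ 1 _ _ _ _ _ _ _ _ _ _ _ _ (by norm_num) (by norm_num) (by norm_num) (by norm_num) (by norm_num) (by norm_num)
      (by norm_num) (by norm_num) _)

private theorem cOsw {m : ℕ} (p : Pt m) :
    cOH (swH p) = (mob 0 2 (-1) 2 (-4) p.1, mob 0 (-4) 2 (-1) 2 p.2) := by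
  rw [swH_eq0, cOH_eq]
  exact Prod.ext (mm _ 1 _ _ _ _ _ _ _ _ _ _ _ _ (by norm_num) (by norm_num) (by norm_num) (by norm_num) (by norm_num) (by norm_num)
      (by norm_num) (by norm_num) _)
    (mm _ 1 _ _ _ _ _ _ _ _ _ _ _ _ (by norm_num) (by norm_num) (by norm_num) (by norm_num) (by norm_num) (by norm_num)
      (by norm_num) (by norm_num) _)

private theorem swcOsw {m : ℕ} (p : Pt m) :
    swH (cOH (swH p)) = (mob 0 (-4) 1 (-1) 1 p.2, mob 0 1 (-1) 1 (-4) p.1) := by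
  rw [cOsw, swH_eq0]
  exact Prod.ext (mm _ 2 _ _ _ _ _ _ _ _ _ _ _ _ (by norm_num) (by norm_num) (by norm_num) (by norm_num) (by norm_num) (by norm_num)
      (by norm_num) (by norm_num) _)
    (mm _ 2 _ _ _ _ _ _ _ _ _ _ _ _ (by norm_num) (by norm_num) (by norm_num) (by norm_num) (by norm_num) (by norm_num)
      (by norm_num) (by norm_num) _)

private theorem cOswcO {m : ℕ} (p : Pt m) :
    cOH (swH (cOH p)) = (mob 0 (-6) 2 (-2) 3 p.2, mob 0 3 (-2) 2 (-6) p.1) := by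
  rw [swcO, cOH_eq]
  exact Prod.ext (mm _ 1 _ _ _ _ _ _ _ _ _ _ _ _ (by norm_num) (by norm_num) (by norm_num) (by norm_num) (by norm_num) (by norm_num)
      (by norm_num) (by norm_num) _)
    (mm _ 1 _ _ _ _ _ _ _ _ _ _ _ _ (by norm_num) (by norm_num) (by norm_num) (by norm_num) (by norm_num) (by norm_num)
      (by norm_num) (by norm_num) _)

private theorem qcO {m : ℕ} (p : Pt m) :
    swH (cOH (swH (cOH p))) = (mob 0 3 (-1) 2 (-3) p.1, mob 0 (-3) 2 (-1) 3 p.2) := by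
  rw [cOswcO, swH_eq0]
  exact Prod.ext (mm _ 2 _ _ _ _ _ _ _ _ _ _ _ _ (by norm_num) (by norm_num) (by norm_num) (by norm_num) (by norm_num) (by norm_num)
      (by norm_num) (by norm_num) _)
    (mm _ 2 _ _ _ _ _ _ _ _ _ _ _ _ (by norm_num) (by norm_num) (by norm_num) (by norm_num) (by norm_num) (by norm_num)
      (by norm_num) (by norm_num) _)

private theorem qcOx {m : ℕ} (p : Pt m) :
    cOH (swH (cOH (swH p))) = (mob 0 3 (-1) 2 (-3) p.1, mob 0 (-3) 2 (-1) 3 p.2) := by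
  rw [swcOsw, cOH_eq]
  exact Prod.ext (mm _ (-1) _ _ _ _ _ _ _ _ _ _ _ _ (by norm_num) (by norm_num) (by norm_num) (by norm_num) (by norm_num) (by norm_num)
      (by norm_num) (by norm_num) _)
    (mm _ (-1) _ _ _ _ _ _ _ _ _ _ _ _ (by norm_num) (by norm_num) (by norm_num) (by norm_num) (by norm_num) (by norm_num)
      (by norm_num) (by norm_num) _)

private theorem swcB {m : ℕ} (p : Pt m) :
    swH (cBH p) = (mob 1 (-8) 1 (-2) 6 p.1, mob 1 6 (-2) 1 (-8) p.2) := by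
  rw [cBH_eq, swH_eq1]
  exact Prod.ext (mm _ 1 _ _ _ _ _ _ _ _ _ _ _ _ (by norm_num) (by norm_num) (by norm_num) (by norm_num) (by norm_num) (by norm_num)
      (by norm_num) (by norm_num) _)
    (mm _ 1 _ _ _ _ _ _ _ _ _ _ _ _ (by norm_num) (by norm_num) (by norm_num) (by norm_num) (by norm_num) (by norm_num)
      (by norm_num) (by norm_num) _)

private theorem cBsw {m : ℕ} (p : Pt m) :
    cBH (swH p) = (mob 1 6 (-1) 2 (-8) p.1, mob 1 (-8) 2 (-1) 6 p.2) := by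
  rw [swH_eq1, cBH_eq]
  exact Prod.ext (mm _ 1 _ _ _ _ _ _ _ _ _ _ _ _ (by norm_num) (by norm_num) (by norm_num) (by norm_num) (by norm_num) (by norm_num)
      (by norm_num) (by norm_num) _)
    (mm _ 1 _ _ _ _ _ _ _ _ _ _ _ _ (by norm_num) (by norm_num) (by norm_num) (by norm_num) (by norm_num) (by norm_num)
      (by norm_num) (by norm_num) _)

private theorem swcBsw {m : ℕ} (p : Pt m) :
    swH (cBH (swH p)) = (mob 1 (-8) 1 (-1) 3 p.2, mob 1 3 (-1) 1 (-8) p.1) := by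
  rw [cBsw, swH_eq1]
  exact Prod.ext (mm _ 2 _ _ _ _ _ _ _ _ _ _ _ _ (by norm_num) (by norm_num) (by norm_num) (by norm_num) (by norm_num) (by norm_num)
      (by norm_num) (by norm_num) _)
    (mm _ 2 _ _ _ _ _ _ _ _ _ _ _ _ (by norm_num) (by norm_num) (by norm_num) (by norm_num) (by norm_num) (by norm_num)
      (by norm_num) (by norm_num) _)

private theorem cBswcB {m : ℕ} (p : Pt m) :
    cBH (swH (cBH p)) = (mob 1 (-14) 2 (-2) 7 p.2, mob 1 7 (-2) 2 (-14) p.1) := by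
  rw [swcB, cBH_eq]
  exact Prod.ext (mm _ 1 _ _ _ _ _ _ _ _ _ _ _ _ (by norm_num) (by norm_num) (by norm_num) (by norm_num) (by norm_num) (by norm_num)
      (by norm_num) (by norm_num) _)
    (mm _ 1 _ _ _ _ _ _ _ _ _ _ _ _ (by norm_num) (by norm_num) (by norm_num) (by norm_num) (by norm_num) (by norm_num)
      (by norm_num) (by norm_num) _)

private theorem qcB {m : ℕ} (p : Pt m) :
    swH (cBH (swH (cBH p))) = (mob 1 7 (-1) 2 (-7) p.1, mob 1 (-7) 2 (-1) 7 p.2) := by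
  rw [cBswcB, swH_eq1]
  exact Prod.ext (mm _ 2 _ _ _ _ _ _ _ _ _ _ _ _ (by norm_num) (by norm_num) (by norm_num) (by norm_num) (by norm_num) (by norm_num)
      (by norm_num) (by norm_num) _)
    (mm _ 2 _ _ _ _ _ _ _ _ _ _ _ _ (by norm_num) (by norm_num) (by norm_num) (by norm_num) (by norm_num) (by norm_num)
      (by norm_num) (by norm_num) _)

private theorem qcBx {m : ℕ} (p : Pt m) :
    cBH (swH (cBH (swH p))) = (mob 1 7 (-1) 2 (-7) p.1, mob 1 (-7) 2 (-1) 7 p.2) := by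
  rw [swcBsw, cBH_eq]
  exact Prod.ext (mm _ (-1) _ _ _ _ _ _ _ _ _ _ _ _ (by norm_num) (by norm_num) (by norm_num) (by norm_num) (by norm_num) (by norm_num)
      (by norm_num) (by norm_num) _)
    (mm _ (-1) _ _ _ _ _ _ _ _ _ _ _ _ (by norm_num) (by norm_num) (by norm_num) (by norm_num) (by norm_num) (by norm_num)
      (by norm_num) (by norm_num) _)

private theorem k8O {m : ℕ} : K8 (swH : Pt m → Pt m) cOH := by
  exact ⟨swsw, cOcO, fun p => (qcO p).trans (qcOx p).symm,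
    ty1 _ 0 3 2 _ _ _ _ _ _ _ _ (by norm_num) (by norm_num) (by norm_num) (by norm_num)
      (by norm_num) (by norm_num) swH_eq0,
    ty1 _ 0 4 4 _ _ _ _ _ _ _ _ (by norm_num) (by norm_num) (by norm_num) (by norm_num)
      (by norm_num) (by norm_num) cOH_eq,
    ty1 _ 0 1 1 _ _ _ _ _ _ _ _ (by norm_num) (by norm_num) (by norm_num) (by norm_num)
      (by norm_num) (by norm_num) swcOsw,
    ty1 _ 0 2 3 _ _ _ _ _ _ _ _ (by norm_num) (by norm_num) (by norm_num) (by norm_num)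
      (by norm_num) (by norm_num) cOswcO,
    ty0 _ 0 2 3 _ _ _ _ _ _ _ _ (by norm_num) (by norm_num) (by norm_num) (by norm_num)
      (by norm_num) (by norm_num) (by norm_num) (by norm_num) swcO,
    ty0 _ 0 3 2 _ _ _ _ _ _ _ _ (by norm_num) (by norm_num) (by norm_num) (by norm_num)
      (by norm_num) (by norm_num) (by norm_num) (by norm_num) cOsw,
    ty0 _ 0 4 4 _ _ _ _ _ _ _ _ (by norm_num) (by norm_num) (by norm_num) (by norm_num)
      (by norm_num) (by norm_num) (by norm_num) (by norm_num) qcO⟩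

private theorem k8B {m : ℕ} : K8 (swH : Pt m → Pt m) cBH := by
  exact ⟨swsw, cBcB, fun p => (qcB p).trans (qcBx p).symm,
    ty1 _ 1 3 2 _ _ _ _ _ _ _ _ (by norm_num) (by norm_num) (by norm_num) (by norm_num)
      (by norm_num) (by norm_num) swH_eq1,
    ty1 _ 1 1 1 _ _ _ _ _ _ _ _ (by norm_num) (by norm_num) (by norm_num) (by norm_num)
      (by norm_num) (by norm_num) cBH_eq,
    ty1 _ 1 4 4 _ _ _ _ _ _ _ _ (by norm_num) (by norm_num) (by norm_num) (by norm_num)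
      (by norm_num) (by norm_num) swcBsw,
    ty1 _ 1 2 3 _ _ _ _ _ _ _ _ (by norm_num) (by norm_num) (by norm_num) (by norm_num)
      (by norm_num) (by norm_num) cBswcB,
    ty0 _ 1 3 2 _ _ _ _ _ _ _ _ (by norm_num) (by norm_num) (by norm_num) (by norm_num)
      (by norm_num) (by norm_num) (by norm_num) (by norm_num) swcB,
    ty0 _ 1 2 3 _ _ _ _ _ _ _ _ (by norm_num) (by norm_num) (by norm_num) (by norm_num)
      (by norm_num) (by norm_num) (by norm_num) (by norm_num) cBsw,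
    ty0 _ 1 4 4 _ _ _ _ _ _ _ _ (by norm_num) (by norm_num) (by norm_num) (by norm_num)
      (by norm_num) (by norm_num) (by norm_num) (by norm_num) qcB⟩

/-- TYPH. -/
theorem hTypH : HTyp := by
  intro m
  refine ⟨⟨⟨?_, swsw, ?_⟩, ?_, ?_, ?_⟩, ⟨⟨dRdR 0, cOcO, fun p => (dRcO p).trans (cOdR p).symm⟩, ?_, ?_, ?_⟩,
    ⟨⟨dRdR 1, cCcC, fun p => (dRcC p).trans (cCdR p).symm⟩, ?_, ?_, ?_⟩,
    ⟨cAcA, ?_⟩, ⟨dldl, ?_⟩, k8O, k8B, swcO, swcB⟩
  · intro p
    simp [ng]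
  · intro p
    simp [ng, swH]
  · exact Or.inl ⟨rfl, -1, -1, _, _, by norm_num, by norm_num, by norm_num, by norm_num, dv_neg, dv_neg,
      fun p => rfl⟩
  · exact ty1 _ 1 3 2 _ _ _ _ _ _ _ _ (by norm_num) (by norm_num) (by norm_num) (by norm_num)
      (by norm_num) (by norm_num) swH_eq1
  · exact ty1 _ 1 2 3 _ _ _ _ _ _ _ _ (by norm_num) (by norm_num) (by norm_num) (by norm_num)
      (by norm_num) (by norm_num) ngsw_eq
  · exact ty0 _ 0 4 4 _ _ _ _ _ _ _ _ (by norm_num) (by norm_num) (by norm_num) (by norm_num)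
      (by norm_num) (by norm_num) (by norm_num) (by norm_num) (dR_eq 0)
  · exact ty1 _ 0 4 4 _ _ _ _ _ _ _ _ (by norm_num) (by norm_num) (by norm_num) (by norm_num)
      (by norm_num) (by norm_num) cOH_eq
  · exact ty1 _ 0 1 1 _ _ _ _ _ _ _ _ (by norm_num) (by norm_num) (by norm_num) (by norm_num)
      (by norm_num) (by norm_num) dRcO
  · exact ty0 _ 1 4 4 _ _ _ _ _ _ _ _ (by norm_num) (by norm_num) (by norm_num) (by norm_num)
      (by norm_num) (by norm_num) (by norm_num) (by norm_num) (dR_eq 1)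
  · exact ty1 _ 1 4 4 _ _ _ _ _ _ _ _ (by norm_num) (by norm_num) (by norm_num) (by norm_num)
      (by norm_num) (by norm_num) cCH_eq
  · exact ty1 _ 1 1 1 _ _ _ _ _ _ _ _ (by norm_num) (by norm_num) (by norm_num) (by norm_num)
      (by norm_num) (by norm_num) dRcC
  · exact ty1 _ 1 1 1 _ _ _ _ _ _ _ _ (by norm_num) (by norm_num) (by norm_num) (by norm_num)
      (by norm_num) (by norm_num) cAH_eq
  · exact ty1 _ 1 3 2 _ _ _ _ _ _ _ _ (by norm_num) (by norm_num) (by norm_num) (by norm_num)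
      (by norm_num) (by norm_num) dlH_eq

end Pool.Agent.Helper42.TH
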